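import Pool.Agent.helper46.T7.SpecC

set_option autoImplicit false

namespace Pool.Agent.T7

open Finset NumberField Pool.Agent.helper3.FT Pool.Agent.helper47.RA Pool.Agent.T5 Pool.Agent.T6
open Pool.Agent.helper26.T5 (nn LEMB LP HCL HGA LYT LAW)
open Pool.Agent.helper28.LT (rad)

theorem C7S : C7S_stmt := by
  intro w N S A X t hw hA hN hT hneg hfw hnf
  obtain ⟨_, _, _, _, _, h4⟩ := AIST t hT
  obtain ⟨f, D₀, hf1, hD₀, hd⟩ := Pool.Agent.helper28.LT.exists_fund (dis t) hneg h4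
  have hd' : dis t = D₀ * (f : ℤ) ^ 2 := by rw [hd]; ring
  have hf2 : 2 ≤ f := by
    rcases Nat.lt_or_ge 1 f with h | h
    · omega
    · exfalso
      have h1 : f = 1 := by omega
      subst h1
      apply hnf
      rw [hd']
      simpa using hD₀
  have hp : ∀ p : ℕ, p.Prime → p ∣ f → w < p := fun p hp hpf =>
    (SFP AIST).2 w t f D₀ hT hfw hD₀ hd' hf1 p hp hpf
  have hp2 : ∀ p : ℕ, p ∣ f → (p : ℤ) ^ 2 ∣ dis t := fun p hpf => by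
    rw [hd']
    exact Dvd.dvd.mul_left (pow_dvd_pow_of_dvd (Int.natCast_dvd_natCast.mpr hpf) 2) _
  by_cases h1 : ∃ p : ℕ, p.Prime ∧ p ∣ f ∧ (p : ℝ) ^ 2 * S ≤ N
  · obtain ⟨p, h1, h2, h3⟩ := h1
    exact Or.inl ⟨p, h1, hp p h1 h2, h3, hp2 p h2⟩
  push Not at h1
  by_cases h2 : ∃ p : ℕ, p.Prime ∧ p ∣ f ∧ (p : ℝ) ^ 2 * S ≤ A * N
  · obtain ⟨p, h3, h4, h5⟩ := h2
    exact Or.inr (Or.inl ⟨p, h3, h1 p h3 h4, h5, hp2 p h4⟩)
  push Not at h2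
  by_cases h3 : ∃ p : ℕ, p.Prime ∧ p ∣ f ∧ X < p
  · obtain ⟨p, h4, h5, h6⟩ := h3
    exact Or.inr (Or.inr (Or.inl ⟨f, D₀, hD₀, hd', fun q hq hqf => by have := hp q hq hqf; omega,
      p, h4, h5, h6⟩))
  push Not at h3
  by_cases h5 : ∃ p : ℕ, p.Prime ∧ p ∣ f ∧ ((p : ℤ) ∣ t.2.2.2 ∨ (p : ℤ) ∣ lam t)
  · obtain ⟨p, h6, h7, h8⟩ := h5
    exact Or.inr (Or.inr (Or.inr (Or.inl ⟨p, h6, by have := hp p h6 h7; omega,
      (h1 p h6 h7).le, h3 p h6 h7, hp2 p h7, h8⟩)))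
  push Not at h5
  have h6 : ∀ p : ℕ, p.Prime → p ∣ f → ¬ (p : ℤ) ∣ t.2.2.2 * lam t := by
    intro p hpp hpf hdv
    rcases (Nat.prime_iff_prime_int.mp hpp).dvd_or_dvd hdv with h | h
    · exact (h5 p hpp hpf).1 h
    · exact (h5 p hpp hpf).2 h
  by_cases hfp : f.Prime
  · exact Or.inr (Or.inr (Or.inr (Or.inr (Or.inl ⟨f, D₀, hfp, by have := hp f hfp dvd_rfl; omega, hD₀, hd',
      h6 f hfp dvd_rfl, h1 f hfp dvd_rfl, h3 f hfp dvd_rfl⟩))))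
  · refine Or.inr (Or.inr (Or.inr (Or.inr (Or.inr ⟨f, D₀, hD₀, hd', hf2, hfp, ?_, ?_⟩))))
    · rw [Int.isCoprime_iff_gcd_eq_one]
      by_contra hg
      obtain ⟨q, hq, hqg⟩ := Nat.exists_prime_and_dvd hg
      have h7 : (q : ℤ) ∣ (f : ℤ) := (Int.natCast_dvd_natCast.mpr hqg).trans (Int.gcd_dvd_left ..)
      have h8 : (q : ℤ) ∣ t.2.2.2 := (Int.natCast_dvd_natCast.mpr hqg).trans (Int.gcd_dvd_right ..)
      exact (h5 q hq (Int.natCast_dvd_natCast.mp h7)).1 h8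
    · intro p hpp hpf
      exact ⟨by have := hp p hpp hpf; omega, h2 p hpp hpf⟩

end Pool.Agent.T7
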