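import Pool.Agent.helper8.T7.SpecSM

set_option autoImplicit false

namespace Pool.Agent.T7

open Finset NumberField Pool.Agent.helper3.FT Pool.Agent.helper47.RA Pool.Agent.T5 Pool.Agent.T6 Pool.Agent.T6L
open Pool.Agent.helper26.T5 (nn LEMB LPR LAW LP LPA HLN HPR HSQ HID HCL HGA)

theorem SMR : SMR_stmt := by
  intro t p hT hp hR hZ hn
  have hpi : Prime (p : ℤ) := Nat.prime_iff_prime_int.mp hp
  have hnz : (p : ℤ) ∣ (t.1.1 : ℤ) := Int.natCast_dvd_natCast.mpr hn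
  have hkR : (t.1.2 : ℤ) * RR t = t.2.2.2 * (t.1.1 : ℤ) ^ 2 - t.2.1 ^ 2 := by
    unfold RR
    apply Int.mul_ediv_cancel'
    have h := hT.c2
    rw [← Int.dvd_neg]
    have e : -(t.2.2.2 * (t.1.1 : ℤ) ^ 2 - t.2.1 ^ 2) = t.2.1 ^ 2 - t.2.2.2 * (t.1.1 : ℤ) ^ 2 := by ring
    rw [e]; exact h
  have hm : (p : ℤ) ∣ t.2.1 := by
    have h1 : (p : ℤ) ∣ t.2.2.2 * (t.1.1 : ℤ) ^ 2 := Dvd.dvd.mul_left (dvd_pow hnz two_ne_zero) _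
    have h2 : (p : ℤ) ∣ t.2.2.2 * (t.1.1 : ℤ) ^ 2 - t.2.1 ^ 2 := by
      rw [← hkR]; exact Dvd.dvd.mul_left hR _
    have h3 : (p : ℤ) ∣ t.2.1 ^ 2 := (dvd_sub_right h1).mp h2
    exact hpi.dvd_of_dvd_pow h3
  have hk : (p : ℤ) ∣ (t.1.2 : ℤ) := by
    have h1 : (p : ℤ) ∣ t.2.2.2 * (t.1.2 : ℤ) ^ 4 + t.2.1 * t.2.2.1 * (t.1.2 : ℤ) ^ 2
        - t.2.2.1 ^ 2 * (t.1.1 : ℤ) ^ 2 := (dvd_pow hnz three_ne_zero).trans hT.c1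
    have h2 : (p : ℤ) ∣ t.2.2.1 ^ 2 * (t.1.1 : ℤ) ^ 2 := Dvd.dvd.mul_left (dvd_pow hnz two_ne_zero) _
    have h3 : (p : ℤ) ∣ t.2.1 * t.2.2.1 * (t.1.2 : ℤ) ^ 2 := by
      rw [mul_assoc]; exact Dvd.dvd.mul_right hm _
    have h4 : (p : ℤ) ∣ t.2.2.2 * (t.1.2 : ℤ) ^ 4 := by
      have h5 := dvd_add h1 h2
      rw [sub_add_cancel] at h5
      exact (dvd_add_left h3).mp h5
    rcases hpi.dvd_or_dvd h4 with h | h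
    · exact absurd h hZ
    · exact hpi.dvd_of_dvd_pow h
  have hkn : p ∣ t.1.2 := Int.natCast_dvd_natCast.mp hk
  have h1 : p ∣ Nat.gcd t.1.1 t.1.2 := Nat.dvd_gcd hn hkn
  rw [hT.co] at h1
  exact hp.one_lt.ne' (Nat.dvd_one.mp h1)

end Pool.Agent.T7
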